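import Pool.Agent.X156.IO.Count

/-!
# Period ratios of inside-out Ehrhart quasipolynomials

Let `P = conv {0, e_1, e_2, (1/2, 1/2, 1/2)} = {z ≥ 0, z ≤ x, z ≤ y, x + y ≤ 1}` and
`H = {x = y}`. Then

* `E^w(t) = (2 t^3 - 15 t^2 + 34 t - 24) / 24` for even `t` and `(2 t^3 - 15 t^2 + 34 t - 21) / 24`
  for odd `t`, so `(p^w_0, p^w_1, p^w_2, p^w_3) = (2, 1, 1, 1)`;
* `E°(t) = (2 t^3 - 18 t^2 + 52 t - 48) / 24` for even `t` and `(2 t^3 - 18 t^2 + 46 t - 30) / 24`
  for odd `t`, so `(p_0, p_1, p_2, p_3) = (2, 2, 1, 1)`.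

Hence `r_0 / r_1 = 1 / 2` is not an integer.
-/

set_option autoImplicit false

open Finset

namespace Pool.Agent.Results.MP_76d2cf_co.PeriodRatios

open Pool.Agent.X156.IO

/-- A rational polytope: the convex hull of finitely many rational points. -/
def IsRationalPolytope {d : ℕ} (P : Set (Fin d → ℝ)) : Prop :=
  ∃ V : Set (Fin d → ℝ), V.Finite ∧ (∀ v ∈ V, ∀ i, ∃ q : ℚ, v i = q) ∧ P = convexHull ℝ V

/-- A rational hyperplane. -/
def IsRationalHyperplane {d : ℕ} (h : Set (Fin d → ℝ)) : Prop :=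
  ∃ (a : Fin d → ℚ) (b : ℚ), a ≠ 0 ∧ h = {x | ∑ i, (a i : ℝ) * x i = b}

/-- The dimension of a set. -/
noncomputable def dim {d : ℕ} (P : Set (Fin d → ℝ)) : ℕ := Module.finrank ℝ (vectorSpan ℝ P)

/-- `(P, H)` is an inside-out polytope: `P` is a rational polytope of dimension at least one and `H`
is a finite set of rational hyperplanes that is transverse to `P`: no member of `H` contains `P`,
and every intersection of members of `H` that meets `P` also meets the relative interior of `P`. -/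
structure InsideOut {d : ℕ} (P : Set (Fin d → ℝ)) (H : Set (Set (Fin d → ℝ))) : Prop where
  polytope : IsRationalPolytope P
  one_le_dim : 1 ≤ dim P
  finite : H.Finite
  hyperplane : ∀ h ∈ H, IsRationalHyperplane h
  not_subset : ∀ h ∈ H, ¬ P ⊆ h
  transverse : ∀ S ⊆ H, (P ∩ ⋂₀ S).Nonempty → (intrinsicInterior ℝ P ∩ ⋂₀ S).Nonempty

/-- The points of `A` with coordinates in `(1/t) ℤ`. -/
def points {d : ℕ} (t : ℕ) (A : Set (Fin d → ℝ)) : Set (Fin d → ℝ) :=
  {x | x ∈ A ∧ ∀ i, ∃ m : ℤ, x i = m / t}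

/-- `E°(t)`: the number of points of `(1/t) ℤ^d` in the relative interior of `P` that are on no
hyperplane of `H`. -/
noncomputable def Eo {d : ℕ} (P : Set (Fin d → ℝ)) (H : Set (Set (Fin d → ℝ))) (t : ℕ) : ℕ :=
  (points t (intrinsicInterior ℝ P \ ⋃₀ H)).ncard

/-- `E^w(t)`: the number of points of `(1/t) ℤ^d` in the relative interior of `P`. -/
noncomputable def Ew {d : ℕ} (P : Set (Fin d → ℝ)) (t : ℕ) : ℕ :=
  (points t (intrinsicInterior ℝ P)).ncard

/-- The functions `c_0, …, c_δ` are periodic (on the integers `t ≥ 1`), and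
`E(t) = ∑_{k ≤ δ} c_k(t) t^k` for all `t ≥ 1`. -/
def IsCoeffs (δ : ℕ) (E : ℕ → ℕ) (c : ℕ → ℕ → ℝ) : Prop :=
  (∀ k ≤ δ, ∃ p, 0 < p ∧ ∀ t, 1 ≤ t → c k (t + p) = c k t) ∧
  ∀ t, 1 ≤ t → (E t : ℝ) = ∑ k ∈ range (δ + 1), c k t * (t : ℝ) ^ k

/-- `p` is the minimal period of `f` (on the integers `t ≥ 1`). -/
def IsMinPeriod (f : ℕ → ℝ) (p : ℕ) : Prop :=
  IsLeast {p | 0 < p ∧ ∀ t, 1 ≤ t → f (t + p) = f t} p

/-! ### The pyramid -/

/-- the vertices -/
noncomputable def vtx : Fin 4 → (Fin 3 → ℝ) :=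
  ![![0, 0, 0], ![1, 0, 0], ![0, 1, 0], ![1 / 2, 1 / 2, 1 / 2]]

/-- the pyramid -/
def pyr : Set (Fin 3 → ℝ) := convexHull ℝ (Set.range vtx)

/-- the hyperplane `x = y` -/
def hyp : Set (Fin 3 → ℝ) := {x | ∑ i, (((![1, -1, 0] : Fin 3 → ℚ) i : ℚ) : ℝ) * x i = (0 : ℚ)}

theorem mem_hyp {x : Fin 3 → ℝ} : x ∈ hyp ↔ x 0 = x 1 := by
  unfold hyp
  rw [Set.mem_ofPred_eq, Fin.sum_univ_three]
  simp
  constructor <;> intro h <;> linarith

theorem mem_pyr {x : Fin 3 → ℝ} :
    x ∈ pyr ↔ 0 ≤ x 2 ∧ x 2 ≤ x 0 ∧ x 2 ≤ x 1 ∧ x 0 + x 1 ≤ 1 := by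
  constructor
  · intro hx
    have hconv : Convex ℝ {x : Fin 3 → ℝ | 0 ≤ x 2 ∧ x 2 ≤ x 0 ∧ x 2 ≤ x 1 ∧ x 0 + x 1 ≤ 1} := by
      intro x hx y hy a b ha hb hab
      simp only [Set.mem_ofPred_eq] at hx hy ⊢
      simp only [Pi.add_apply, Pi.smul_apply, smul_eq_mul]
      obtain ⟨h1, h2, h3, h4⟩ := hx
      obtain ⟨g1, g2, g3, g4⟩ := hy
      refine ⟨?_, ?_, ?_, ?_⟩
      · positivity
      · nlinarith
      · nlinarith
      · nlinarith
    refine convexHull_min ?_ hconv hx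
    rintro _ ⟨i, rfl⟩
    fin_cases i <;> (simp [vtx]; try norm_num)
  · rintro ⟨h1, h2, h3, h4⟩
    have hx : x = ∑ i, (![1 - x 0 - x 1, x 0 - x 2, x 1 - x 2, 2 * x 2] : Fin 4 → ℝ) i • vtx i := by
      rw [Fin.sum_univ_four]
      funext i
      fin_cases i <;> simp [vtx] <;> ring
    rw [hx]
    refine (convex_convexHull ℝ _).sum_mem (fun i _ => ?_) ?_
      fun i _ => subset_convexHull ℝ _ ⟨i, rfl⟩
    · fin_cases i <;> simp <;> linarith
    · rw [Fin.sum_univ_four]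
      simp
      ring

/-- the interior -/
def inner : Set (Fin 3 → ℝ) := {x | 0 < x 2 ∧ x 2 < x 0 ∧ x 2 < x 1 ∧ x 0 + x 1 < 1}

theorem isOpen_inner : IsOpen inner := by
  have h1 : IsOpen {x : Fin 3 → ℝ | 0 < x 2} := isOpen_lt (by fun_prop) (by fun_prop)
  have h2 : IsOpen {x : Fin 3 → ℝ | x 2 < x 0} := isOpen_lt (by fun_prop) (by fun_prop)
  have h3 : IsOpen {x : Fin 3 → ℝ | x 2 < x 1} := isOpen_lt (by fun_prop) (by fun_prop)
  have h4 : IsOpen {x : Fin 3 → ℝ | x 0 + x 1 < 1} := isOpen_lt (by fun_prop) (by fun_prop)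
  exact h1.inter (h2.inter (h3.inter h4))

theorem interior_pyr : interior pyr = inner := by
  apply Set.Subset.antisymm
  · intro x hx
    rw [mem_interior_iff_mem_nhds, Metric.mem_nhds_iff] at hx
    obtain ⟨ε, hε, hball⟩ := hx
    have hmove : ∀ v : Fin 3 → ℝ, ‖v‖ ≤ 1 → x + (ε / 2) • v ∈ pyr := by
      intro v hv
      apply hball
      rw [Metric.mem_ball, dist_eq_norm, add_sub_cancel_left, norm_smul, Real.norm_eq_abs,
        abs_of_pos (by positivity)]
      nlinarith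
    have hn : ∀ v : Fin 3 → ℝ, (∀ i, |v i| ≤ 1) → ‖v‖ ≤ 1 := by
      intro v hv
      rw [pi_norm_le_iff_of_nonneg zero_le_one]
      exact hv
    have h1 := mem_pyr.1 (hmove ![0, 0, -1] (hn _ (by
      intro i; fin_cases i <;> simp)))
    have h2 := mem_pyr.1 (hmove ![-1, 0, 0] (hn _ (by
      intro i; fin_cases i <;> simp)))
    have h3 := mem_pyr.1 (hmove ![0, -1, 0] (hn _ (by
      intro i; fin_cases i <;> simp)))
    have h4 := mem_pyr.1 (hmove ![1, 0, 0] (hn _ (by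
      intro i; fin_cases i <;> simp)))
    simp at h1 h2 h3 h4
    refine ⟨?_, ?_, ?_, ?_⟩ <;> linarith
  · apply interior_maximal _ isOpen_inner
    rintro x ⟨h1, h2, h3, h4⟩
    exact mem_pyr.2 ⟨h1.le, h2.le, h3.le, h4.le⟩

/-- the relative interior of a set with nonempty interior -/
theorem intrinsicInterior_eq {d : ℕ} {P : Set (Fin d → ℝ)} (h : (interior P).Nonempty)
    (hc : Convex ℝ P) : intrinsicInterior ℝ P = interior P := by
  have htop : affineSpan ℝ P = ⊤ := by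
    apply affineSpan_eq_top_of_nonempty_interior
    rwa [hc.convexHull_eq]
  apply Set.Subset.antisymm
  · apply interior_maximal intrinsicInterior_subset
    unfold intrinsicInterior
    have hop : IsOpen ((affineSpan ℝ P : AffineSubspace ℝ (Fin d → ℝ)) : Set (Fin d → ℝ)) := by
      rw [htop]
      exact isOpen_univ
    exact hop.isOpenMap_subtype_val _ isOpen_interior
  · exact interior_subset_intrinsicInterior

theorem inner_nonempty : inner.Nonempty :=
  ⟨![1 / 3, 1 / 3, 1 / 6], by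
    refine ⟨?_, ?_, ?_, ?_⟩ <;> simp <;> norm_num⟩

theorem intrinsicInterior_pyr : intrinsicInterior ℝ pyr = inner := by
  rw [intrinsicInterior_eq (P := pyr) _ (convex_convexHull ℝ _), interior_pyr]
  rw [interior_pyr]
  exact inner_nonempty

theorem dim_pyr : dim pyr = 3 := by
  have htop : affineSpan ℝ pyr = ⊤ := by
    apply affineSpan_eq_top_of_nonempty_interior
    have hc : Convex ℝ pyr := convex_convexHull ℝ _
    rw [hc.convexHull_eq, interior_pyr]
    exact inner_nonempty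
  unfold dim
  rw [← direction_affineSpan, htop, AffineSubspace.direction_top, finrank_top,
    Module.finrank_fintype_fun_eq_card, Fintype.card_fin]

theorem insideOut : InsideOut pyr {hyp} where
  polytope := by
    refine ⟨Set.range vtx, Set.finite_range _, ?_, rfl⟩
    rintro _ ⟨j, rfl⟩ i
    refine ⟨(![![0, 0, 0], ![1, 0, 0], ![0, 1, 0], ![1 / 2, 1 / 2, 1 / 2]] :
      Fin 4 → Fin 3 → ℚ) j i, ?_⟩
    fin_cases j <;> fin_cases i <;> simp [vtx]
  one_le_dim := by rw [dim_pyr]; norm_num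
  finite := Set.finite_singleton _
  hyperplane := by
    rintro h rfl
    refine ⟨![1, -1, 0], 0, ?_, rfl⟩
    intro h
    have := congrFun h 0
    simp at this
  not_subset := by
    rintro h rfl hsub
    have h1 : (vtx 1) ∈ hyp := hsub (subset_convexHull ℝ _ ⟨1, rfl⟩)
    rw [mem_hyp] at h1
    simp [vtx] at h1
  transverse := by
    intro S hS _
    refine ⟨![1 / 3, 1 / 3, 1 / 6], ?_, ?_⟩
    · rw [intrinsicInterior_pyr]
      refine ⟨?_, ?_, ?_, ?_⟩ <;> simp <;> norm_num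
    · intro h hh
      have := hS hh
      rw [Set.mem_singleton_iff] at this
      rw [this, mem_hyp]
      simp

/-- the embedding of the integer points -/
noncomputable def emb (t : ℕ) (p : ℤ × ℤ × ℤ) : Fin 3 → ℝ :=
  ![(p.1 : ℝ) / t, (p.2.1 : ℝ) / t, (p.2.2 : ℝ) / t]

theorem emb_injective {t : ℕ} (ht : 1 ≤ t) : Function.Injective (emb t) := by
  have ht' : (t : ℝ) ≠ 0 := by positivity
  rintro ⟨a, b, c⟩ ⟨a', b', c'⟩ h
  have h0 := congrFun h 0
  have h1 := congrFun h 1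
  have h2 := congrFun h 2
  simp [emb] at h0 h1 h2
  rw [div_left_inj' ht'] at h0 h1 h2
  rw [Prod.mk.injEq, Prod.mk.injEq]
  exact ⟨by exact_mod_cast h0, by exact_mod_cast h1, by exact_mod_cast h2⟩

theorem emb_mem {t : ℕ} (ht : 1 ≤ t) (p : ℤ × ℤ × ℤ) : emb t p ∈ inner ↔ p ∈ Tf t := by
  have ht' : (0 : ℝ) < t := by positivity
  obtain ⟨a, b, c⟩ := p
  rw [mem_Tf]
  simp only [inner, emb, Set.mem_ofPred_eq, Matrix.cons_val_zero, Matrix.cons_val_one,
    Matrix.cons_val]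
  rw [div_lt_div_iff_of_pos_right ht', div_lt_div_iff_of_pos_right ht', ← add_div,
    div_lt_one ht', div_pos_iff_of_pos_right ht']
  constructor
  · rintro ⟨h1, h2, h3, h4⟩
    exact ⟨by exact_mod_cast h1, by exact_mod_cast h2, by exact_mod_cast h3,
      by exact_mod_cast h4⟩
  · rintro ⟨h1, h2, h3, h4⟩
    exact ⟨by exact_mod_cast h1, by exact_mod_cast h2, by exact_mod_cast h3,
      by exact_mod_cast h4⟩

theorem points_eq {t : ℕ} (ht : 1 ≤ t) (A : Set (Fin 3 → ℝ)) (hA : A ⊆ inner) :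
    points t A = emb t '' {p | p ∈ Tf t ∧ emb t p ∈ A} := by
  ext x
  constructor
  · rintro ⟨h1, h2⟩
    obtain ⟨a, ha⟩ := h2 0
    obtain ⟨b, hb⟩ := h2 1
    obtain ⟨c, hc⟩ := h2 2
    have hx : emb t (a, b, c) = x := by
      funext i
      fin_cases i
      · simp [emb, ha]
      · simp [emb, hb]
      · simp [emb, hc]
    refine ⟨(a, b, c), ⟨?_, ?_⟩, hx⟩
    · rw [← emb_mem ht, hx]
      exact hA h1
    · rw [hx]
      exact h1
  · rintro ⟨⟨a, b, c⟩, ⟨_, h⟩, rfl⟩
    refine ⟨h, fun i => ?_⟩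
    fin_cases i
    · exact ⟨a, by simp [emb]⟩
    · exact ⟨b, by simp [emb]⟩
    · exact ⟨c, by simp [emb]⟩

theorem Ew_eq {t : ℕ} (ht : 1 ≤ t) : Ew pyr t = (Tf t).card := by
  unfold Ew
  rw [intrinsicInterior_pyr, points_eq ht _ (fun x h => h),
    Set.ncard_image_of_injective _ (emb_injective ht)]
  have : {p | p ∈ Tf t ∧ emb t p ∈ inner} = (Tf t : Set (ℤ × ℤ × ℤ)) := by
    ext p
    rw [Set.mem_ofPred_eq, emb_mem ht, and_self, Finset.mem_coe]
  rw [this, Set.ncard_coe_finset]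

theorem Eo_eq {t : ℕ} (ht : 1 ≤ t) :
    Eo pyr {hyp} t = ((Tf t).filter fun p => p.1 ≠ p.2.1).card := by
  have ht' : (t : ℝ) ≠ 0 := by positivity
  unfold Eo
  rw [intrinsicInterior_pyr, points_eq ht _ (fun x h => h.1),
    Set.ncard_image_of_injective _ (emb_injective ht)]
  have : {p | p ∈ Tf t ∧ emb t p ∈ inner \ ⋃₀ {hyp}} =
      (((Tf t).filter fun p => p.1 ≠ p.2.1 : Finset (ℤ × ℤ × ℤ)) : Set (ℤ × ℤ × ℤ)) := by
    ext ⟨a, b, c⟩
    rw [Set.mem_ofPred_eq, Set.sUnion_singleton, Set.mem_sdiff, emb_mem ht, mem_hyp,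
      Finset.mem_coe, Finset.mem_filter]
    simp only [emb, Matrix.cons_val_zero, Matrix.cons_val_one]
    rw [div_left_inj' ht', Int.cast_inj]
    tauto
  rw [this, Set.ncard_coe_finset]

/-- the coefficients of `E^w` -/
noncomputable def cw (k t : ℕ) : ℝ :=
  if k = 0 then (if Even t then -1 else -21 / 24) else if k = 1 then 34 / 24 else
    if k = 2 then -15 / 24 else 2 / 24

/-- the coefficients of `E°` -/
noncomputable def co (k t : ℕ) : ℝ :=
  if k = 0 then (if Even t then -2 else -30 / 24) else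
    if k = 1 then (if Even t then 52 / 24 else 46 / 24) else
    if k = 2 then -18 / 24 else 2 / 24

theorem cw_coeffs : IsCoeffs 3 (Ew pyr) cw := by
  refine ⟨fun k _ => ⟨2, by norm_num, fun t _ => ?_⟩, fun t ht => ?_⟩
  · have : Even (t + 2) ↔ Even t := by
      rw [Nat.even_add]
      simp
    simp only [cw, this]
  · rw [Ew_eq ht]
    simp only [Finset.sum_range_succ, Finset.sum_range_zero, cw]
    rcases Nat.even_or_odd' t with ⟨s, rfl | rfl⟩
    · have h1 := card_Tf_even s (by omega)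
      have h2 : (6 * ((Tf (2 * s)).card : ℝ)) = (s - 1) * (4 * s ^ 2 - 11 * s + 6) := by
        exact_mod_cast h1
      simp
      linear_combination h2 / 6
    · have h1 := card_Tf_odd s
      have h2 : (6 * ((Tf (2 * s + 1)).card : ℝ)) = (s - 1) * s * (4 * s - 5) := by
        exact_mod_cast h1
      have h3 : ¬ Even (2 * s + 1) := by simp
      simp [h3]
      linear_combination h2 / 6

theorem co_coeffs : IsCoeffs 3 (Eo pyr {hyp}) co := by
  refine ⟨fun k _ => ⟨2, by norm_num, fun t _ => ?_⟩, fun t ht => ?_⟩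
  · have : Even (t + 2) ↔ Even t := by
      rw [Nat.even_add]
      simp
    simp only [co, this]
  · rw [Eo_eq ht]
    simp only [Finset.sum_range_succ, Finset.sum_range_zero, co]
    have h0 := card_off t
    have h0' : ((((Tf t).filter fun p => p.1 ≠ p.2.1).card : ℕ) : ℝ) =
        (Tf t).card - (Uf t).card := by
      rw [← h0]
      push_cast
      ring
    rw [h0']
    rcases Nat.even_or_odd' t with ⟨s, rfl | rfl⟩
    · have h1 := card_Tf_even s (by omega)
      have h2 : (6 * ((Tf (2 * s)).card : ℝ)) = (s - 1) * (4 * s ^ 2 - 11 * s + 6) := by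
        exact_mod_cast h1
      have h4 := card_Uf_even s (by omega)
      have h5 : (2 * ((Uf (2 * s)).card : ℝ)) = (s - 1) * (s - 2) := by
        exact_mod_cast h4
      simp
      linear_combination h2 / 6 - h5 / 2
    · have h1 := card_Tf_odd s
      have h2 : (6 * ((Tf (2 * s + 1)).card : ℝ)) = (s - 1) * s * (4 * s - 5) := by
        exact_mod_cast h1
      have h4 := card_Uf_odd s
      have h5 : (2 * ((Uf (2 * s + 1)).card : ℝ)) = s * (s - 1) := by
        exact_mod_cast h4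
      have h3 : ¬ Even (2 * s + 1) := by simp
      simp [h3]
      linear_combination h2 / 6 - h5 / 2

theorem minPeriod_const {f : ℕ → ℝ} {a : ℝ} (h : ∀ t, f t = a) : IsMinPeriod f 1 :=
  ⟨⟨one_pos, fun t _ => by rw [h, h]⟩, fun p hp => hp.1⟩

theorem minPeriod_two {f : ℕ → ℝ} {a b : ℝ} (hab : a ≠ b)
    (h : ∀ t, f t = if Even t then a else b) : IsMinPeriod f 2 := by
  refine ⟨⟨two_pos, fun t _ => ?_⟩, fun p hp => ?_⟩
  · have : Even (t + 2) ↔ Even t := by
      rw [Nat.even_add]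
      simp
    rw [h, h]
    simp only [this]
  · by_contra hcon
    have h1 : p = 1 := by
      have := hp.1
      omega
    have h2 := hp.2 1 le_rfl
    rw [h1, h, h] at h2
    norm_num at h2
    exact hab h2

/-- **Negative answer to Q1.** There is an inside-out polytope `(P, H)` in `ℝ^3`, of dimension
`δ = 3`, whose quasipolynomials have the minimal periods `(p_0, p_1, p_2, p_3) = (2, 2, 1, 1)` and
`(p^w_0, p^w_1, p^w_2, p^w_3) = (2, 1, 1, 1)`. So `p_1 p^w_0 = 4` does not divide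
`p_0 p^w_1 = 2`, and the statement in question is false. -/
theorem result :
    (∃ (P : Set (Fin 3 → ℝ)) (H : Set (Set (Fin 3 → ℝ))), InsideOut P H ∧ dim P = 3 ∧
      ∃ c c' : ℕ → ℕ → ℝ, IsCoeffs 3 (Eo P H) c ∧ IsCoeffs 3 (Ew P) c' ∧
        IsMinPeriod (c 0) 2 ∧ IsMinPeriod (c 1) 2 ∧ IsMinPeriod (c 2) 1 ∧ IsMinPeriod (c 3) 1 ∧
        IsMinPeriod (c' 0) 2 ∧ IsMinPeriod (c' 1) 1 ∧ IsMinPeriod (c' 2) 1 ∧
        IsMinPeriod (c' 3) 1) ∧
    ¬ ∀ (d : ℕ) (P : Set (Fin d → ℝ)) (H : Set (Set (Fin d → ℝ))), InsideOut P H →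
      ∀ c c' : ℕ → ℕ → ℝ, IsCoeffs (dim P) (Eo P H) c → IsCoeffs (dim P) (Ew P) c' →
      ∀ p p' : ℕ → ℕ, (∀ k ≤ dim P, IsMinPeriod (c k) (p k)) →
        (∀ k ≤ dim P, IsMinPeriod (c' k) (p' k)) →
      ∀ k, 1 ≤ k → k ≤ dim P → p k * p' (k - 1) ∣ p (k - 1) * p' k := by
  have h0 : IsMinPeriod (co 0) 2 := minPeriod_two (a := -2) (b := -30 / 24) (by norm_num)
    fun t => by simp [co]
  have h1 : IsMinPeriod (co 1) 2 := minPeriod_two (a := 52 / 24) (b := 46 / 24) (by norm_num)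
    fun t => by simp [co]
  have h2 : IsMinPeriod (co 2) 1 := minPeriod_const (a := -18 / 24) fun t => by simp [co]
  have h3 : IsMinPeriod (co 3) 1 := minPeriod_const (a := 2 / 24) fun t => by simp [co]
  have g0 : IsMinPeriod (cw 0) 2 := minPeriod_two (a := -1) (b := -21 / 24) (by norm_num)
    fun t => by simp [cw]
  have g1 : IsMinPeriod (cw 1) 1 := minPeriod_const (a := 34 / 24) fun t => by simp [cw]
  have g2 : IsMinPeriod (cw 2) 1 := minPeriod_const (a := -15 / 24) fun t => by simp [cw]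
  have g3 : IsMinPeriod (cw 3) 1 := minPeriod_const (a := 2 / 24) fun t => by simp [cw]
  refine ⟨⟨pyr, {hyp}, insideOut, dim_pyr, co, cw, co_coeffs, cw_coeffs, h0, h1, h2, h3, g0, g1,
    g2, g3⟩, fun h => ?_⟩
  have h5 := h 3 pyr {hyp} insideOut co cw (by rw [dim_pyr]; exact co_coeffs)
    (by rw [dim_pyr]; exact cw_coeffs) (fun k => if k ≤ 1 then 2 else 1)
    (fun k => if k = 0 then 2 else 1) (fun k hk => ?_) (fun k hk => ?_) 1 le_rfl
    (by rw [dim_pyr]; norm_num)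
  · norm_num at h5
  · rw [dim_pyr] at hk
    interval_cases k
    · exact h0
    · exact h1
    · exact h2
    · exact h3
  · rw [dim_pyr] at hk
    interval_cases k
    · exact g0
    · exact g1
    · exact g2
    · exact g3

end Pool.Agent.Results.MP_76d2cf_co.PeriodRatios
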